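import Pool.Agent.Helper28.BA.GoalsC
import Pool.Agent.Helper28.BA.CQ

/-! # Project BA2, packet WAL: Wallis' bound for real exponents -/

open MeasureTheory Set Filter Topology

namespace Pool.Agent.Helper31.BA

open Pool.Agent.Helper28.BA

theorem deriv_abs_mul {P : ℝ} (hP : 1 < P) (x : ℝ) :
    HasDerivAt (fun x : ℝ => |x| ^ P * x) ((P + 1) * |x| ^ P) x := by
  have h := (hasDerivAt_abs_rpow x hP).mul (hasDerivAt_id x)
  refine h.congr_deriv ?_
  simp only [id, mul_one]
  rcases eq_or_ne x 0 with rfl | hx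
  · simp [Real.zero_rpow (by linarith : P ≠ 0)]
  · have hpos : 0 < |x| := abs_pos.2 hx
    have e : |x| ^ P = |x| ^ (P - 2) * x ^ 2 := by
      rw [← sq_abs, ← Real.rpow_natCast, ← Real.rpow_add hpos]
      norm_num
    rw [e]
    ring

theorem cont_pow {q : ℝ} (hq : 0 ≤ q) : Continuous fun θ : ℝ => |Real.cos θ| ^ q :=
  (by fun_prop : Continuous fun θ => |Real.cos θ|).rpow_const fun _ => Or.inr hq

theorem cq_rec {P : ℝ} (hP : 1 < P) : (P + 2) * cq (P + 2) = (P + 1) * cq P := by
  have hd : ∀ θ : ℝ, HasDerivAt (fun θ : ℝ => (|Real.cos θ| ^ P * Real.cos θ) * Real.sin θ)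
      ((P + 2) * |Real.cos θ| ^ (P + 2) - (P + 1) * |Real.cos θ| ^ P) θ := by
    intro θ
    have h1 : HasDerivAt (fun θ : ℝ => |Real.cos θ| ^ P * Real.cos θ)
        ((P + 1) * |Real.cos θ| ^ P * (-Real.sin θ)) θ :=
      (deriv_abs_mul hP (Real.cos θ)).comp θ (Real.hasDerivAt_cos θ)
    refine (h1.mul (Real.hasDerivAt_sin θ)).congr_deriv ?_
    have e : |Real.cos θ| ^ (P + 2) = |Real.cos θ| ^ P * Real.cos θ ^ 2 := by
      rcases eq_or_ne (Real.cos θ) 0 with h0 | h0
      · rw [h0]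
        simp [Real.zero_rpow (by linarith : P ≠ 0), Real.zero_rpow (by linarith : P + 2 ≠ 0)]
      · rw [Real.rpow_add (abs_pos.2 h0), ← sq_abs (Real.cos θ), ← Real.rpow_natCast]
        norm_num
    rw [e]
    have hs : Real.sin θ ^ 2 = 1 - Real.cos θ ^ 2 := by
      have := Real.sin_sq_add_cos_sq θ
      linarith
    have e2 : (P + 1) * |Real.cos θ| ^ P * (-Real.sin θ) * Real.sin θ
        = -((P + 1) * |Real.cos θ| ^ P * Real.sin θ ^ 2) := by ring
    rw [e2, hs]
    ring
  have hc1 := cont_pow (q := P + 2) (by linarith)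
  have hc2 := cont_pow (q := P) (by linarith)
  have hint : IntervalIntegrable (fun θ : ℝ => (P + 2) * |Real.cos θ| ^ (P + 2)
      - (P + 1) * |Real.cos θ| ^ P) volume 0 (2 * Real.pi) :=
    ((continuous_const.mul hc1).sub (continuous_const.mul hc2)).intervalIntegrable _ _
  have h := intervalIntegral.integral_eq_sub_of_hasDerivAt (fun θ _ => hd θ) hint
  rw [Real.sin_two_pi, Real.sin_zero, mul_zero, mul_zero, sub_zero,
    intervalIntegral.integral_sub ((hc1.intervalIntegrable _ _).const_mul _)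
      ((hc2.intervalIntegrable _ _).const_mul _),
    intervalIntegral.integral_const_mul, intervalIntegral.integral_const_mul] at h
  unfold cq
  have h2 : (P + 2) * ((2 * Real.pi)⁻¹ * ∫ θ in (0 : ℝ)..(2 * Real.pi), |Real.cos θ| ^ (P + 2))
      - (P + 1) * ((2 * Real.pi)⁻¹ * ∫ θ in (0 : ℝ)..(2 * Real.pi), |Real.cos θ| ^ P)
      = (2 * Real.pi)⁻¹ * ((P + 2) * (∫ θ in (0 : ℝ)..(2 * Real.pi), |Real.cos θ| ^ (P + 2))
        - (P + 1) * ∫ θ in (0 : ℝ)..(2 * Real.pi), |Real.cos θ| ^ P) := by ring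
  rw [h, mul_zero] at h2
  linarith

/-- the invariant product -/
noncomputable def cP (P : ℝ) : ℝ := (P + 1) * cq P * cq (P + 1)

theorem cP_succ {P : ℝ} (hP : 1 < P) : cP (P + 1) = cP P := by
  unfold cP
  have h := cq_rec hP
  have e : P + 1 + 1 = P + 2 := by ring
  rw [e]
  calc (P + 2) * cq (P + 1) * cq (P + 2) = ((P + 2) * cq (P + 2)) * cq (P + 1) := by ring
    _ = (P + 1) * cq P * cq (P + 1) := by rw [h]

theorem cP_add {P : ℝ} (hP : 1 < P) (n : ℕ) : cP (P + n) = cP P := by
  induction n with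
  | zero => simp
  | succ n ih =>
    have hn : (0 : ℝ) ≤ n := Nat.cast_nonneg n
    have := cP_succ (P := P + n) (by linarith)
    rw [← ih, ← this]
    congr 1
    push_cast
    ring

theorem cP_two : cP 2 = 2 / Real.pi := by
  have h2 := int_abs2
  have h3 := int_abs3
  have e2 : cq 2 = 1 / 2 := by
    unfold cq
    have : ∫ θ in (0 : ℝ)..(2 * Real.pi), |Real.cos θ| ^ (2 : ℝ) = Real.pi := by
      refine Eq.trans ?_ h2
      congr 1
      ext θ
      exact_mod_cast Real.rpow_natCast |Real.cos θ| 2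
    rw [this]
    have := Real.pi_pos
    field_simp
  have e3 : cq (2 + 1) = 4 / (3 * Real.pi) := by
    unfold cq
    have : ∫ θ in (0 : ℝ)..(2 * Real.pi), |Real.cos θ| ^ ((2 : ℝ) + 1) = 8 / 3 := by
      refine Eq.trans ?_ h3
      congr 1
      ext θ
      have e : ((2 : ℝ) + 1) = ((3 : ℕ) : ℝ) := by norm_num
      rw [e, Real.rpow_natCast]
    rw [this]
    have := Real.pi_pos
    field_simp
    ring
  unfold cP
  rw [e2, e3]
  have := Real.pi_pos
  field_simp
  ring

theorem cP_nat {m : ℕ} (hm : 2 ≤ m) : cP m = 2 / Real.pi := by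
  obtain ⟨n, rfl⟩ := Nat.exists_eq_add_of_le hm
  have := cP_add (P := 2) (by norm_num) n
  push_cast
  rw [this, cP_two]

theorem cq_anti {q q' : ℝ} (h1 : 0 < q') (h : q' ≤ q) : cq q ≤ cq q' := by
  apply cq_le_of_le _ (by linarith) h1
  intro x h0 hx1
  rcases eq_or_lt_of_le h0 with rfl | hpos
  · rw [Real.zero_rpow (by linarith), Real.zero_rpow (by linarith)]
  · exact Real.rpow_le_rpow_of_exponent_ge hpos hx1 h

theorem cq_nonneg (q : ℝ) : 0 ≤ cq q := by
  unfold cq
  apply mul_nonneg (by positivity)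
  apply intervalIntegral.integral_nonneg (by positivity)
  intro x _
  positivity

theorem cP_ge {P : ℝ} (hP : 1 < P) : 2 / Real.pi ≤ cP P := by
  set m := ⌊P⌋₊ with hm
  have hmle : (m : ℝ) ≤ P := Nat.floor_le (by linarith)
  have hlt : P < m + 1 := Nat.lt_floor_add_one P
  have hm1 : 1 ≤ m := by
    rw [hm]; exact Nat.le_floor (by simpa using hP.le)
  have hkey : ∀ n : ℕ, (P + n + 1) / (m + n + 2) * (2 / Real.pi) ≤ cP P := by
    intro n
    have hn : (0 : ℝ) ≤ n := Nat.cast_nonneg n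
    have hm0 : (1 : ℝ) ≤ m := by exact_mod_cast hm1
    rw [← cP_add hP n]
    have h1 := cP_nat (m := m + n + 1) (by omega)
    unfold cP at h1 ⊢
    push_cast at h1
    have a1 : cq (m + n + 1) ≤ cq (P + n) := cq_anti (by linarith) (by linarith)
    have a2 : cq ((m : ℝ) + n + 1 + 1) ≤ cq (P + n + 1) := cq_anti (by linarith) (by linarith)
    have h3 : cq (m + n + 1) * cq ((m : ℝ) + n + 1 + 1) ≤ cq (P + n) * cq (P + n + 1) :=
      mul_le_mul a1 a2 (cq_nonneg _) (cq_nonneg _)
    have hpos : (0 : ℝ) < m + n + 2 := by positivity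
    have e : (P + n + 1) / (m + n + 2) * (2 / Real.pi)
        = (P + n + 1) * (cq (m + n + 1) * cq ((m : ℝ) + n + 1 + 1)) := by
      rw [← h1]
      have e2 : (m : ℝ) + n + 1 + 1 = m + n + 2 := by ring
      rw [e2]
      field_simp
    rw [e, mul_assoc]
    exact mul_le_mul_of_nonneg_left h3 (by linarith)
  have hlim : Tendsto (fun n : ℕ => (P + n + 1) / ((m : ℝ) + n + 2) * (2 / Real.pi)) atTop
      (𝓝 (1 * (2 / Real.pi))) := by
    apply Tendsto.mul_const
    have h1 : (fun n : ℕ => (P + n + 1) / ((m : ℝ) + n + 2))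
        = fun n : ℕ => 1 - ((m : ℝ) + 1 - P) / ((m : ℝ) + n + 2) := by
      ext n
      have hpos : (0 : ℝ) < m + n + 2 := by positivity
      field_simp
      ring
    rw [h1]
    have h2 : Tendsto (fun n : ℕ => ((m : ℝ) + 1 - P) / ((m : ℝ) + n + 2)) atTop (𝓝 0) := by
      apply Tendsto.div_atTop tendsto_const_nhds
      have h3 : Tendsto (fun n : ℕ => (n : ℝ) + (m + 2)) atTop atTop :=
        tendsto_atTop_add_const_right _ _ tendsto_natCast_atTop_atTop
      refine h3.congr fun n => by ring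
    simpa using h2.const_sub 1
  have := le_of_tendsto' hlim hkey
  simpa using this

theorem cq_one : cq 1 = 2 / Real.pi := by
  unfold cq
  have : ∫ θ in (0 : ℝ)..(2 * Real.pi), |Real.cos θ| ^ (1 : ℝ) = 4 := by
    simp only [Real.rpow_one]
    exact int_abs1
  rw [this]
  have := Real.pi_pos
  field_simp
  norm_num

theorem WAL : S_WAL := by
  intro P hP
  have hpi := Real.pi_pos
  rcases eq_or_lt_of_le hP with rfl | hP
  · rw [cq_one, div_pow, div_le_div_iff₀ (by positivity) (by positivity)]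
    nlinarith [Real.pi_lt_four, mul_pos hpi hpi]
  · have h := cP_ge hP
    have ha : cq (P + 1) ≤ cq P := cq_anti (by linarith) (by linarith)
    have h0 := cq_nonneg P
    unfold cP at h
    have h2 : (P + 1) * cq P * cq (P + 1) ≤ (P + 1) * (cq P ^ 2) := by
      have : cq P * cq (P + 1) ≤ cq P * cq P := mul_le_mul_of_nonneg_left ha h0
      nlinarith
    have h3 := h.trans h2
    rw [div_le_iff₀ (by positivity)]
    rw [div_le_iff₀ hpi] at h3
    nlinarith

end Pool.Agent.Helper31.BA
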